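import Mathlib
import Pool.Agent.H297R3.SL.Defs
import Pool.Agent.H297R3.SL.Braid
import Pool.Agent.H297R3.SV.Defs
import Pool.Agent.H297R3.SV.Cyc

/-!
# A virtual string link which is not monotone up to self-virtualization

Let `n ≥ 4`. Take four classical crossings: the first strand meets the third and then the second
one, the second strand meets the first and then the fourth one, the third strand meets the fourth
and then the first one, the fourth strand meets the second and then the third one. This diagram is
not equivalent to a monotone one.

The proof: consider colourings of the edges by vectors in `(ZMod 2)²`, with the following rule at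
a crossing of strands with colours `(x₁, x₂)`, `(y₁, y₂)`: if the two strands are the strands 1 and
2, or the strands 3 and 4, then `x₁ + y₁` is added to `x₂` and to `y₂`; if one of the strands is 1
or 2 and the other one is 3 or 4, then `y₂` is added to `x₁` and `x₂` is added to `y₁`; otherwise
the colours do not change. The set of colourings is invariant under all moves. In a monotone diagram
the colours at the top determine all colours, and in the diagram above they do not.
-/

set_option autoImplicit false

namespace Pool.Agent.Results.MP_a283c1_gt.NotMonotone

open Pool.Agent.Helper718.VB
open Pool.Agent.H297R3.SL

/-- For `n ≥ 4` the map `vP_n^sv → vSL_n^sv` is not surjective. -/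
theorem result : ∀ n : ℕ, 4 ≤ n → ∃ D : StringLinkDiagram n,
    ∀ (w : List (Letter n)) (hw : toVB w ∈ vP n),
      (Quot.mk _ D : vSLsv n) ≠ Quot.mk _ ⟨braidDiagram w, braid_isStringLink w hw⟩ :=
  not_surjective

end Pool.Agent.Results.MP_a283c1_gt.NotMonotone
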